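import Pool.Agent.Lib.MP_40dc3c_ag.W1a
import Pool.Agent.Lib.MP_40dc3c_ag.W1b
import Pool.Agent.Lib.MP_40dc3c_ag.W2a
import Pool.Agent.Lib.MP_40dc3c_ag.W2b
import Pool.Agent.Lib.MP_40dc3c_ag.W2c
import Pool.Agent.Lib.MP_40dc3c_ag.W3a
import Pool.Agent.Lib.MP_40dc3c_ag.W3b
import Pool.Agent.Lib.MP_40dc3c_ag.W3c
import Pool.Agent.Lib.MP_40dc3c_ag.W4
import Pool.Agent.Lib.MP_40dc3c_ag.W5
import Pool.Agent.Lib.MP_40dc3c_ag.W6a
import Pool.Agent.Lib.MP_40dc3c_ag.W6r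
import Pool.Agent.Lib.MP_40dc3c_ag.W8x
import Pool.Agent.Lib.MP_40dc3c_ag.W9a
import Pool.Agent.Lib.MP_40dc3c_ag.W9r

namespace Pool.Agent.Results.MP_40dc3c_ag.AlmostAllAbelian

open Pool.Agent.Lib.MP_40dc3c_ag

theorem result : ∀ q : ℕ, 2 ≤ q → ∀ᶠ g : ℕ in Filter.atTop, ∀ k : ℕ, k ^ 100 ≤ g →
    (2 : ℕ∞) ^ k * {P ∈ Weil q g | ¬ Relative q P}.encard <
      ({P ∈ Weil q g | IsCoprime (P.coeff g) q}.ncard : ℕ∞) :=
  have c := cr (top est) low
  fun q hq => mainG est span (top est)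
    (rob (tt t1 c node) (cc c) (mm c node) (surg (pert alt kst big sgn)) (fin alt kst))
    (arR (a1 span est) (c1 span est)) (dic span) hq (fun _ => Relative q)
    fun g hg P hP h l m d i a b => extX q P (by omega) hP.1
      (gal frob grp q g _ _ P h (by omega) (by omega) (by omega) (by omega) l m d i a b)
      (galX q g _ _ P h (by omega) (by omega) (by omega) (by omega) l m d i a b)

end Pool.Agent.Results.MP_40dc3c_ag.AlmostAllAbelian
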