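import Pool.Agent.Lib.MP_40dc3c_ag.Fe.Main

namespace Pool.Agent.Results.MP_40dc3c_ag.FermatLevel

open Pool.Agent.Lib.MP_40dc3c_ag.Fe

theorem result (p : ℕ) (hp : p.Prime) (a : Multiset ℚ) (r : ℕ) (hr : a.card = 2 * r)
    (ha : Tate p a) (h : ∀ n : ℕ, Odd n → Squarefree n →
      Even (a.countP fun x => x.den.primeFactors = n.primeFactors) ∨ (∃ v, n ∣ p ^ v + 1) ∨
      n = 3 ∨ n = 5 ∨ (n = 15 ∧ p % 15 ∈ ({7, 11, 13} : Set ℕ)) ∨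
      ∃ χ : DirichletCharacter ℂ n, χ.IsPrimitive ∧ χ.Odd ∧ (∃ k, χ ^ 2 ^ k = 1) ∧ χ p = 1 ∧
        (χ 2 = 1 ∨ ∀ x ∈ a, ¬4 ∣ x.den) ∧
        ∀ x ∈ a, ∀ l : ℕ, l.Prime → l ∣ x.den → ¬l ∣ 2 * n → χ l = 1) :
    (a.map sym).sum - r • Lef ∈ Std p :=
  main p hp a r hr ha h

end Pool.Agent.Results.MP_40dc3c_ag.FermatLevel
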