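import Pool.Agent.Lib.MP_40dc3c_ag.P.Main
import Pool.Agent.Lib.MP_40dc3c_ag.T.Q6

namespace Pool.Agent.Results.MP_40dc3c_ag.StrongTate

open Pool.Agent.Lib.MP_40dc3c_ag.P LinearAlgebra.Projectivization

open Classical in
theorem result (p f m n : ℕ) [Fact p.Prime] (d : Fin n → ℕ) (hd : ∀ t, 0 < d t) (hf : 0 < f)
    (hm : m ∣ p ^ f - 1)
    (hg : ∀ e : ℕ, Odd e → Squarefree e → e ∣ m → (∃ v, e ∣ p ^ v + 1) ∨ e = 3 ∨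
      ∃ χ : DirichletCharacter ℂ e, χ.IsPrimitive ∧ χ.Odd ∧ (∃ j, χ ^ 2 ^ j = 1) ∧ χ p = 1 ∧
        (χ 2 = 1 ∨ ¬4 ∣ m) ∧ ∀ l : ℕ, l.Prime → l ∣ m → ¬l ∣ 2 * e → χ l = 1) :
    ∃ μ : ℂ →₀ ℤ, (∀ (F : Type) [Field F] [Fintype F] (j : ℕ), Fintype.card F = (p ^ f) ^ j →
      (Nat.card {x : (t : Fin n) → ℙ F (Fin (d t + 2) → F) // ∀ t, ∑ s, (x t).rep s ^ m = 0} : ℂ) =
        μ.sum fun t c => c * t ^ j) ∧
      ∀ r ≤ ∑ t, d t, ∃ (N : ℕ)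
        (V W : Fin N → Ideal (MvPolynomial (Σ t, Fin (d t + 2)) (AlgebraicClosure (ZMod p))))
        (M : Matrix (Fin N) (Fin N) ℚ),
        (N : ℤ) = (μ.sum fun t c => if IsOfFinOrder (t / ((p : ℂ) ^ f) ^ r) then c else 0) ∧
        (∀ a, Subv Sigma.fst m (V a) (∑ t, d t - r) ∧ Subv Sigma.fst m (W a) r) ∧
        (∀ a b, Inter Sigma.fst m (V a) (W b) (M a b)) ∧ M.det ≠ 0 :=
  main p f m n d hd hf hm fun ω hω _ hp _ _ c he hT =>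
    Pool.Agent.Lib.MP_40dc3c_ag.T.prod_U_eq_one3 ω p hω m hp hg c he hT

end Pool.Agent.Results.MP_40dc3c_ag.StrongTate
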